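import Pool.Agent.Helper56.AP.Defs2

/-!
# Project A' (MP_8958e8): block ALG, algebra of the Ramanujan sums
-/

open MeasureTheory Set Filter Topology
open Pool.Agent.Helper69.FF

set_option autoImplicit false

namespace Pool.Agent.AP

/-- `d ↦ d · 1[d | n]` -/
private noncomputable def gA (n : ℤ) : ArithmeticFunction ℝ := ⟨fun d => if (d : ℤ) ∣ n then (d : ℝ) else 0, by simp⟩

private lemma gA_mul (n : ℤ) : (gA n).IsMultiplicative := by
  refine ⟨by simp [gA], ?_⟩
  intro a b hab
  have hab' : IsCoprime (a : ℤ) (b : ℤ) := Nat.isCoprime_iff_coprime.mpr hab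
  simp only [gA, ArithmeticFunction.coe_mk]
  by_cases ha : (a : ℤ) ∣ n
  · by_cases hb : (b : ℤ) ∣ n
    · have h : ((a * b : ℕ) : ℤ) ∣ n := by
        push_cast
        exact hab'.mul_dvd ha hb
      rw [if_pos h, if_pos ha, if_pos hb]
      push_cast
      ring
    · have h : ¬ ((a * b : ℕ) : ℤ) ∣ n := by
        intro h
        apply hb
        push_cast at h
        exact (Dvd.intro_left _ rfl).trans h
      rw [if_neg h, if_neg hb, mul_zero]
  · have h : ¬ ((a * b : ℕ) : ℤ) ∣ n := by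
      intro h
      apply ha
      push_cast at h
      exact (Dvd.intro _ rfl).trans h
    rw [if_neg h, if_neg ha, zero_mul]

private lemma cr_eq_conv (r : ℕ) (n : ℤ) :
    cr r n = (gA n * ((ArithmeticFunction.moebius : ArithmeticFunction ℤ) : ArithmeticFunction ℝ)) r := by
  rw [ArithmeticFunction.mul_apply, Nat.sum_divisorsAntidiagonal
    (f := fun a b => (gA n) a * ((ArithmeticFunction.moebius : ArithmeticFunction ℤ) : ArithmeticFunction ℝ) b)]
  unfold cr
  refine Finset.sum_congr rfl fun d _ => ?_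
  simp only [gA, ArithmeticFunction.coe_mk, ArithmeticFunction.intCoe_apply]
  split_ifs <;> simp

theorem cr_coprime_mul {r r' : ℕ} (h : Nat.Coprime r r') (n : ℤ) : cr (r * r') n = cr r n * cr r' n := by
  rw [cr_eq_conv, cr_eq_conv, cr_eq_conv]
  exact ((gA_mul n).mul ArithmeticFunction.isMultiplicative_moebius.intCast).map_mul_of_coprime h

theorem cr_prime {p : ℕ} (hp : p.Prime) (n : ℤ) : cr p n = if (p : ℤ) ∣ n then (p : ℝ) - 1 else -1 := by
  unfold cr
  rw [hp.sum_divisors]
  rw [Nat.div_self hp.pos]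
  simp only [Nat.div_one, Nat.cast_one, one_dvd, if_true, ArithmeticFunction.moebius_apply_one,
    ArithmeticFunction.moebius_apply_prime hp, Int.cast_one, Int.cast_neg, mul_one]
  split_ifs <;> ring

/-- `c_r(m l)` for `(r, m) = 1` -/
theorem cr_mul_coprime {r : ℕ} {m : ℤ} (h : IsCoprime (r : ℤ) m) (l : ℤ) : cr r (m * l) = cr r l := by
  unfold cr
  refine Finset.sum_congr rfl fun d hd => ?_
  have hdr : (d : ℤ) ∣ (r : ℤ) := Int.natCast_dvd_natCast.mpr (Nat.dvd_of_mem_divisors hd)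
  have hc : IsCoprime (d : ℤ) m := IsCoprime.of_isCoprime_of_dvd_left h hdr
  have e : ((d : ℤ) ∣ m * l) ↔ ((d : ℤ) ∣ l) := ⟨fun x => hc.dvd_of_dvd_mul_left x, fun x => x.mul_left _⟩
  by_cases hl : (d : ℤ) ∣ l
  · rw [if_pos (e.mpr hl), if_pos hl]
  · rw [if_neg (fun x => hl (e.mp x)), if_neg hl]

/-- `c_r(p) = μ(r)` for a prime `p > r` -/
theorem cr_at_prime {r p : ℕ} (hr : 1 ≤ r) (hp : p.Prime) (h : r < p) : cr r (p : ℤ) = (ArithmeticFunction.moebius r : ℝ) := by
  unfold cr
  rw [Finset.sum_eq_single 1]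
  · simp
  · intro d hd hd1
    have hdr : d ≤ r := Nat.divisor_le hd
    rw [if_neg]
    intro hdp
    have : d ∣ p := Int.natCast_dvd_natCast.mp hdp
    rcases (Nat.dvd_prime hp).mp this with h1 | h1
    · exact hd1 h1
    · omega
  · intro h1
    exact absurd (Nat.one_mem_divisors.mpr (by omega)) h1

theorem GG_le (q R : ℕ) : GG q R ≤ GG 1 R := by
  unfold GG
  refine Finset.sum_le_sum_of_subset_of_nonneg ?_ ?_
  · intro r hr
    rw [Finset.mem_filter] at hr ⊢
    exact ⟨hr.1, hr.2.1, Nat.coprime_one_right r⟩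
  · intro r _ _
    positivity

private lemma mf_mul_moebius (d s : ℕ) : mf (d * s) * (ArithmeticFunction.moebius s : ℝ) =
    if Squarefree s ∧ Nat.Coprime s d then mf d * (1 / (Nat.totient s : ℝ)) else 0 := by
  unfold mf
  by_cases hc : Nat.Coprime s d
  · by_cases hs : Squarefree s
    · rw [if_pos ⟨hs, hc⟩, ArithmeticFunction.isMultiplicative_moebius.map_mul_of_coprime hc.symm, Nat.totient_mul hc.symm]
      have h2 : (ArithmeticFunction.moebius s : ℝ) * (ArithmeticFunction.moebius s : ℝ) = 1 := by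
        have := ArithmeticFunction.moebius_sq_eq_one_of_squarefree hs
        have h3 : ((ArithmeticFunction.moebius s ^ 2 : ℤ) : ℝ) = 1 := by rw [this]; simp
        push_cast at h3
        nlinarith [h3]
      push_cast
      calc (ArithmeticFunction.moebius d : ℝ) * (ArithmeticFunction.moebius s : ℝ) / ((Nat.totient d : ℝ) * (Nat.totient s : ℝ)) *
            (ArithmeticFunction.moebius s : ℝ) =
          (ArithmeticFunction.moebius d : ℝ) * ((ArithmeticFunction.moebius s : ℝ) * (ArithmeticFunction.moebius s : ℝ)) /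
            ((Nat.totient d : ℝ) * (Nat.totient s : ℝ)) := by ring
        _ = _ := by rw [h2, mul_one, div_mul_div_comm, mul_one]
    · rw [if_neg (fun x => hs x.1), ArithmeticFunction.moebius_eq_zero_of_not_squarefree hs]
      simp
  · rw [if_neg (fun x => hc x.2)]
    have hns : ¬ Squarefree (d * s) := by
      intro hsq
      exact hc (Nat.coprime_of_squarefree_mul hsq).symm
    rw [ArithmeticFunction.moebius_eq_zero_of_not_squarefree hns]
    simp

theorem lamR_eq (R : ℕ) (n : ℤ) : lamR R n = ∑ b ∈ (Finset.Icc 1 R).filter (fun b : ℕ => (b : ℤ) ∣ n), xi R b := by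
  unfold lamR cr
  -- switch the order: pairs (r, d) with d | r
  have e1 : ∑ r ∈ Finset.Icc 1 R, mf r * ∑ d ∈ r.divisors, (if (d : ℤ) ∣ n then (d : ℝ) * (ArithmeticFunction.moebius (r / d) : ℝ) else 0) =
      ∑ x ∈ (Finset.Icc 1 R).sigma (fun r => r.divisors),
        (if (x.2 : ℤ) ∣ n then (x.2 : ℝ) * (mf x.1 * (ArithmeticFunction.moebius (x.1 / x.2) : ℝ)) else 0) := by
    rw [Finset.sum_sigma]
    refine Finset.sum_congr rfl fun r _ => ?_
    rw [Finset.mul_sum]
    refine Finset.sum_congr rfl fun d _ => ?_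
    split_ifs
    · ring
    · ring
  have e2 : ∑ x ∈ (Finset.Icc 1 R).sigma (fun r => r.divisors),
        (if (x.2 : ℤ) ∣ n then (x.2 : ℝ) * (mf x.1 * (ArithmeticFunction.moebius (x.1 / x.2) : ℝ)) else 0) =
      ∑ y ∈ (Finset.Icc 1 R).sigma (fun d => Finset.Icc 1 (R / d)),
        (if (y.1 : ℤ) ∣ n then (y.1 : ℝ) * (mf (y.1 * y.2) * (ArithmeticFunction.moebius y.2 : ℝ)) else 0) := by
    refine Finset.sum_bij' (fun x _ => ⟨x.2, x.1 / x.2⟩) (fun y _ => ⟨y.1 * y.2, y.1⟩) ?_ ?_ ?_ ?_ ?_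
    · rintro ⟨r, d⟩ hx
      rw [Finset.mem_sigma] at hx ⊢
      obtain ⟨h1, h2⟩ := hx
      rw [Finset.mem_Icc] at h1
      have hd : d ∣ r := Nat.dvd_of_mem_divisors h2
      have hdr : d ≤ r := Nat.divisor_le h2
      have hd0 : 0 < d := Nat.pos_of_mem_divisors h2
      refine ⟨Finset.mem_Icc.mpr ⟨hd0, hdr.trans h1.2⟩, Finset.mem_Icc.mpr ⟨?_, Nat.div_le_div_right h1.2⟩⟩
      exact Nat.div_pos hdr hd0
    · rintro ⟨d, s⟩ hy
      rw [Finset.mem_sigma] at hy ⊢
      obtain ⟨h1, h2⟩ := hy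
      rw [Finset.mem_Icc] at h1 h2
      have hds : d * s ≤ R := by
        calc d * s ≤ d * (R / d) := Nat.mul_le_mul_left _ h2.2
          _ ≤ R := Nat.mul_div_le R d
      have hpos : 0 < d * s := Nat.mul_pos h1.1 h2.1
      exact ⟨Finset.mem_Icc.mpr ⟨hpos, hds⟩, Nat.mem_divisors.mpr ⟨Dvd.intro _ rfl, hpos.ne'⟩⟩
    · rintro ⟨r, d⟩ hx
      rw [Finset.mem_sigma] at hx
      have hd : d ∣ r := Nat.dvd_of_mem_divisors hx.2
      simp only [Nat.mul_div_cancel' hd]
    · rintro ⟨d, s⟩ hy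
      rw [Finset.mem_sigma] at hy
      have hd0 : 0 < d := (Finset.mem_Icc.mp hy.1).1
      simp only [Nat.mul_div_cancel_left s hd0]
    · rintro ⟨r, d⟩ hx
      rw [Finset.mem_sigma] at hx
      have hd : d ∣ r := Nat.dvd_of_mem_divisors hx.2
      simp only [Nat.mul_div_cancel' hd]
  rw [e1, e2, Finset.sum_sigma, Finset.sum_filter]
  refine Finset.sum_congr rfl fun d hd => ?_
  by_cases hdn : (d : ℤ) ∣ n
  · simp only [if_pos hdn]
    unfold xi GG
    rw [← Finset.mul_sum, mul_assoc, Finset.mul_sum (a := mf d)]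
    congr 1
    rw [Finset.sum_filter]
    exact Finset.sum_congr rfl fun s _ => mf_mul_moebius d s
  · simp only [if_neg hdn, Finset.sum_const_zero]

end Pool.Agent.AP
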