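import Pool.Agent.Helper56.AP.Stmts

/-!
# Project A' (MP_8958e8): block BPS, from `UU` to `b_2`

`b_2(n) = ∑_b ξ_b ...`; by `link` it is enough to bound, for every `b ≤ B` and every non-empty sublist `J`, the sum of
`f_i UU J (N_i)` over `b | N_i`. The condition `b | m l + k` is removed by the residue classes of both variables modulo `b`
(loss `B³ ≤ T^(3/4000000)`).
-/

open MeasureTheory Set Filter Topology
open Pool.Agent.Helper57.Zeta Pool.Agent.Helper57.PC Pool.Agent.Helper57.LH Pool.Agent.Helper78.SG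
open Pool.Agent.Helper4.SH (om)
open Pool.Agent.Helper69.FF Pool.Agent.Helper57.KP
open scoped ContDiff

set_option autoImplicit false

namespace Pool.Agent.AP

namespace BPS

/-! ### residue classes -/

lemma classes2 (b : ℕ) (hb : 1 ≤ b) (S1 S2 : Finset ℕ) (k : ℤ) (G : ℕ → ℕ → ℝ) (E : ℝ) (hE : 0 ≤ E)
    (h : ∀ μ l : ℕ, μ < b → l < b → |∑ x ∈ S1.filter (fun x => x % b = μ), ∑ y ∈ S2.filter (fun y => y % b = l), G x y| ≤ E) :
    |∑ x ∈ (S1 ×ˢ S2).filter (fun x => (b : ℤ) ∣ (x.1 : ℤ) * x.2 + k), G x.1 x.2| ≤ (b : ℝ) ^ 2 * E := by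
  have hmaps : ∀ x ∈ (S1 ×ˢ S2).filter (fun x => (b : ℤ) ∣ (x.1 : ℤ) * x.2 + k),
      (x.1 % b, x.2 % b) ∈ Finset.range b ×ˢ Finset.range b := by
    intro x _
    rw [Finset.mem_product, Finset.mem_range, Finset.mem_range]
    exact ⟨Nat.mod_lt _ hb, Nat.mod_lt _ hb⟩
  rw [← Finset.sum_fiberwise_of_maps_to hmaps]
  calc |∑ y ∈ Finset.range b ×ˢ Finset.range b, ∑ x ∈ ((S1 ×ˢ S2).filter (fun x => (b : ℤ) ∣ (x.1 : ℤ) * x.2 + k)).filter
          (fun x => (x.1 % b, x.2 % b) = y), G x.1 x.2| ≤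
      ∑ y ∈ Finset.range b ×ˢ Finset.range b, |∑ x ∈ ((S1 ×ˢ S2).filter (fun x => (b : ℤ) ∣ (x.1 : ℤ) * x.2 + k)).filter
          (fun x => (x.1 % b, x.2 % b) = y), G x.1 x.2| := Finset.abs_sum_le_sum_abs _ _
    _ ≤ ∑ _y ∈ Finset.range b ×ˢ Finset.range b, E := by
      refine Finset.sum_le_sum fun y hy => ?_
      rw [Finset.mem_product, Finset.mem_range, Finset.mem_range] at hy
      by_cases hd : (b : ℤ) ∣ (y.1 : ℤ) * y.2 + k
      · have e : ((S1 ×ˢ S2).filter (fun x => (b : ℤ) ∣ (x.1 : ℤ) * x.2 + k)).filter (fun x => (x.1 % b, x.2 % b) = y) =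
            (S1.filter (fun x => x % b = y.1)) ×ˢ (S2.filter (fun x => x % b = y.2)) := by
          ext x
          simp only [Finset.mem_filter, Finset.mem_product, Prod.ext_iff]
          constructor
          · rintro ⟨⟨⟨h1, h2⟩, _⟩, h3, h4⟩
            exact ⟨⟨h1, h3⟩, h2, h4⟩
          · rintro ⟨⟨h1, h3⟩, h2, h4⟩
            refine ⟨⟨⟨h1, h2⟩, ?_⟩, h3, h4⟩
            have c1 : (x.1 : ℤ) ≡ (y.1 : ℤ) [ZMOD b] := by
              rw [Int.natCast_modEq_iff]
              rw [Nat.ModEq, h3, Nat.mod_eq_of_lt hy.1]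
            have c2 : (x.2 : ℤ) ≡ (y.2 : ℤ) [ZMOD b] := by
              rw [Int.natCast_modEq_iff]
              rw [Nat.ModEq, h4, Nat.mod_eq_of_lt hy.2]
            have c3 : (x.1 : ℤ) * x.2 + k ≡ (y.1 : ℤ) * y.2 + k [ZMOD b] := (c1.mul c2).add_right k
            exact (Int.modEq_zero_iff_dvd.mp (c3.trans (Int.modEq_zero_iff_dvd.mpr hd)))
        rw [e, Finset.sum_product]
        exact h _ _ hy.1 hy.2
      · have e : ((S1 ×ˢ S2).filter (fun x => (b : ℤ) ∣ (x.1 : ℤ) * x.2 + k)).filter (fun x => (x.1 % b, x.2 % b) = y) = ∅ := by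
          rw [Finset.filter_eq_empty_iff]
          intro x hx hxy
          apply hd
          rw [Finset.mem_filter] at hx
          have c1 : (x.1 : ℤ) ≡ (y.1 : ℤ) [ZMOD b] := by
            rw [Int.natCast_modEq_iff, ← hxy]
            exact (Nat.mod_modEq _ _).symm
          have c2 : (x.2 : ℤ) ≡ (y.2 : ℤ) [ZMOD b] := by
            rw [Int.natCast_modEq_iff, ← hxy]
            exact (Nat.mod_modEq _ _).symm
          have c3 : (y.1 : ℤ) * y.2 + k ≡ (x.1 : ℤ) * x.2 + k [ZMOD b] := ((c1.mul c2).add_right k).symm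
          exact (Int.modEq_zero_iff_dvd.mp (c3.trans (Int.modEq_zero_iff_dvd.mpr hx.2)))
        rw [e, Finset.sum_empty, abs_zero]
        exact hE
    _ = (b : ℝ) ^ 2 * E := by
      rw [Finset.sum_const, Finset.card_product, Finset.card_range, nsmul_eq_mul]
      push_cast
      ring

lemma classesG {ι : Type} (b : ℕ) (hb : 1 ≤ b) (S : Finset ι) (p q : ι → ℕ) (k : ℤ) (G : ι → ℝ) (E : ℝ) (hE : 0 ≤ E)
    (h : ∀ μ l : ℕ, μ < b → l < b → |∑ x ∈ S.filter (fun x => p x % b = μ ∧ q x % b = l), G x| ≤ E) :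
    |∑ x ∈ S.filter (fun x => (b : ℤ) ∣ (p x : ℤ) * q x + k), G x| ≤ (b : ℝ) ^ 2 * E := by
  have hmaps : ∀ x ∈ S.filter (fun x => (b : ℤ) ∣ (p x : ℤ) * q x + k),
      (p x % b, q x % b) ∈ Finset.range b ×ˢ Finset.range b := by
    intro x _
    rw [Finset.mem_product, Finset.mem_range, Finset.mem_range]
    exact ⟨Nat.mod_lt _ hb, Nat.mod_lt _ hb⟩
  rw [← Finset.sum_fiberwise_of_maps_to hmaps]
  calc |∑ y ∈ Finset.range b ×ˢ Finset.range b, ∑ x ∈ (S.filter (fun x => (b : ℤ) ∣ (p x : ℤ) * q x + k)).filter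
          (fun x => (p x % b, q x % b) = y), G x| ≤
      ∑ y ∈ Finset.range b ×ˢ Finset.range b, |∑ x ∈ (S.filter (fun x => (b : ℤ) ∣ (p x : ℤ) * q x + k)).filter
          (fun x => (p x % b, q x % b) = y), G x| := Finset.abs_sum_le_sum_abs _ _
    _ ≤ ∑ _y ∈ Finset.range b ×ˢ Finset.range b, E := by
      refine Finset.sum_le_sum fun y hy => ?_
      rw [Finset.mem_product, Finset.mem_range, Finset.mem_range] at hy
      by_cases hd : (b : ℤ) ∣ (y.1 : ℤ) * y.2 + k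
      · have e : (S.filter (fun x => (b : ℤ) ∣ (p x : ℤ) * q x + k)).filter (fun x => (p x % b, q x % b) = y) =
            S.filter (fun x => p x % b = y.1 ∧ q x % b = y.2) := by
          ext x
          simp only [Finset.mem_filter, Prod.ext_iff]
          constructor
          · rintro ⟨⟨h1, _⟩, h3, h4⟩
            exact ⟨h1, h3, h4⟩
          · rintro ⟨h1, h3, h4⟩
            refine ⟨⟨h1, ?_⟩, h3, h4⟩
            have c1 : (p x : ℤ) ≡ (y.1 : ℤ) [ZMOD b] := by
              rw [Int.natCast_modEq_iff]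
              rw [Nat.ModEq, h3, Nat.mod_eq_of_lt hy.1]
            have c2 : (q x : ℤ) ≡ (y.2 : ℤ) [ZMOD b] := by
              rw [Int.natCast_modEq_iff]
              rw [Nat.ModEq, h4, Nat.mod_eq_of_lt hy.2]
            have c3 : (p x : ℤ) * q x + k ≡ (y.1 : ℤ) * y.2 + k [ZMOD b] := (c1.mul c2).add_right k
            exact (Int.modEq_zero_iff_dvd.mp (c3.trans (Int.modEq_zero_iff_dvd.mpr hd)))
        rw [e]
        exact h _ _ hy.1 hy.2
      · have e : (S.filter (fun x => (b : ℤ) ∣ (p x : ℤ) * q x + k)).filter (fun x => (p x % b, q x % b) = y) = ∅ := by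
          rw [Finset.filter_eq_empty_iff]
          intro x hx hxy
          apply hd
          rw [Finset.mem_filter] at hx
          have c1 : (p x : ℤ) ≡ (y.1 : ℤ) [ZMOD b] := by
            rw [Int.natCast_modEq_iff, ← hxy]
            exact (Nat.mod_modEq _ _).symm
          have c2 : (q x : ℤ) ≡ (y.2 : ℤ) [ZMOD b] := by
            rw [Int.natCast_modEq_iff, ← hxy]
            exact (Nat.mod_modEq _ _).symm
          have c3 : (y.1 : ℤ) * y.2 + k ≡ (p x : ℤ) * q x + k [ZMOD b] := ((c1.mul c2).add_right k).symm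
          exact (Int.modEq_zero_iff_dvd.mp (c3.trans (Int.modEq_zero_iff_dvd.mpr hx.2)))
        rw [e, Finset.sum_empty, abs_zero]
        exact hE
    _ = (b : ℝ) ^ 2 * E := by
      rw [Finset.sum_const, Finset.card_product, Finset.card_range, nsmul_eq_mul]
      push_cast
      ring

lemma classes1 (b : ℕ) (hb : 1 ≤ b) (S : Finset ℕ) (d : ℕ) (k : ℤ) (G : ℕ → ℝ) (E : ℝ) (hE : 0 ≤ E)
    (h : ∀ μ : ℕ, μ < b → |∑ x ∈ S.filter (fun x => x % b = μ), G x| ≤ E) :
    |∑ x ∈ S.filter (fun x : ℕ => (b : ℤ) ∣ (d : ℤ) * x + k), G x| ≤ (b : ℝ) * E := by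
  have hmaps : ∀ x ∈ S.filter (fun x : ℕ => (b : ℤ) ∣ (d : ℤ) * x + k), x % b ∈ Finset.range b := by
    intro x _
    rw [Finset.mem_range]
    exact Nat.mod_lt _ hb
  rw [← Finset.sum_fiberwise_of_maps_to hmaps]
  calc |∑ y ∈ Finset.range b, ∑ x ∈ (S.filter (fun x : ℕ => (b : ℤ) ∣ (d : ℤ) * x + k)).filter (fun x => x % b = y), G x| ≤
      ∑ y ∈ Finset.range b, |∑ x ∈ (S.filter (fun x : ℕ => (b : ℤ) ∣ (d : ℤ) * x + k)).filter (fun x => x % b = y), G x| :=
        Finset.abs_sum_le_sum_abs _ _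
    _ ≤ ∑ _y ∈ Finset.range b, E := by
      refine Finset.sum_le_sum fun y hy => ?_
      rw [Finset.mem_range] at hy
      by_cases hd : (b : ℤ) ∣ (d : ℤ) * y + k
      · have e : (S.filter (fun x : ℕ => (b : ℤ) ∣ (d : ℤ) * x + k)).filter (fun x => x % b = y) = S.filter (fun x => x % b = y) := by
          ext x
          simp only [Finset.mem_filter]
          constructor
          · rintro ⟨⟨h1, _⟩, h3⟩
            exact ⟨h1, h3⟩
          · rintro ⟨h1, h3⟩
            refine ⟨⟨h1, ?_⟩, h3⟩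
            have c1 : (x : ℤ) ≡ (y : ℤ) [ZMOD b] := by
              rw [Int.natCast_modEq_iff]
              rw [Nat.ModEq, h3, Nat.mod_eq_of_lt hy]
            have c3 : (d : ℤ) * x + k ≡ (d : ℤ) * y + k [ZMOD b] := (c1.mul_left d).add_right k
            exact (Int.modEq_zero_iff_dvd.mp (c3.trans (Int.modEq_zero_iff_dvd.mpr hd)))
        rw [e]
        exact h _ hy
      · have e : (S.filter (fun x : ℕ => (b : ℤ) ∣ (d : ℤ) * x + k)).filter (fun x => x % b = y) = ∅ := by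
          rw [Finset.filter_eq_empty_iff]
          intro x hx hxy
          apply hd
          rw [Finset.mem_filter] at hx
          have c1 : (x : ℤ) ≡ (y : ℤ) [ZMOD b] := by
            rw [Int.natCast_modEq_iff, ← hxy]
            exact (Nat.mod_modEq _ _).symm
          have c3 : (d : ℤ) * y + k ≡ (d : ℤ) * x + k [ZMOD b] := ((c1.mul_left d).add_right k).symm
          exact (Int.modEq_zero_iff_dvd.mp (c3.trans (Int.modEq_zero_iff_dvd.mpr hx.2)))
        rw [e, Finset.sum_empty, abs_zero]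
        exact hE
    _ = (b : ℝ) * E := by
      rw [Finset.sum_const, Finset.card_range, nsmul_eq_mul]

/-! ### the products `PU` are prime to `b ≤ B` -/

lemma PU_coprime {B : ℕ} : ∀ J : List (Finset ℕ), (∀ I ∈ J, ∀ p ∈ I, p.Prime ∧ B < p) → ∀ u ∈ PU J, ∀ b : ℕ, 1 ≤ b → b ≤ B → Nat.Coprime b u
  | [], _, u, hu, b, _, _ => by
    simp only [PU, Finset.mem_singleton] at hu
    rw [hu]
    exact Nat.coprime_one_right b
  | I :: Is, h, u, hu, b, hb, hbB => by
    simp only [PU, Finset.mem_image, Finset.mem_product] at hu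
    obtain ⟨x, ⟨h1, h2⟩, rfl⟩ := hu
    have hp := h I (by simp) x.1 h1
    have h3 : Nat.Coprime b x.1 := by
      rw [Nat.coprime_comm, hp.1.coprime_iff_not_dvd]
      intro hd
      have := Nat.le_of_dvd hb hd
      omega
    exact h3.mul_right (PU_coprime Is (fun J hJ => h J (by simp [hJ])) x.2 h2 b hb hbB)

/-- the sum over `b u | N_i` against its model, as a sum of `UU` -/
lemma inner_eq {ι : Type} (S : Finset ι) (N : ι → ℤ) (f : ι → ℝ) {B : ℕ} (J : List (Finset ℕ))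
    (hp : ∀ I ∈ J, ∀ p ∈ I, p.Prime ∧ B < p) (b : ℕ) (hb : 1 ≤ b) (hbB : b ≤ B) :
    ∑ u ∈ PU J, (u : ℝ) / Nat.totient u * ∑ i ∈ S, f i *
        ((if ((b * u : ℕ) : ℤ) ∣ N i then (1 : ℝ) else 0) - (1 / u) * (if (b : ℤ) ∣ N i then (1 : ℝ) else 0)) =
      ∑ i ∈ S.filter (fun i => (b : ℤ) ∣ N i), f i * UU J (N i) := by
  rw [Finset.sum_filter]
  have e1 : ∀ u ∈ PU J, (u : ℝ) / Nat.totient u * ∑ i ∈ S, f i *
        ((if ((b * u : ℕ) : ℤ) ∣ N i then (1 : ℝ) else 0) - (1 / u) * (if (b : ℤ) ∣ N i then (1 : ℝ) else 0)) =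
      ∑ i ∈ S, (if (b : ℤ) ∣ N i then f i * ((u : ℝ) / Nat.totient u * ((if (u : ℤ) ∣ N i then (1 : ℝ) else 0) - 1 / u)) else 0) := by
    intro u hu
    rw [Finset.mul_sum]
    refine Finset.sum_congr rfl fun i _ => ?_
    have hc : Nat.Coprime b u := PU_coprime J hp u hu b hb hbB
    have hc' : IsCoprime (b : ℤ) (u : ℤ) := Nat.isCoprime_iff_coprime.mpr hc
    by_cases hbn : (b : ℤ) ∣ N i
    · rw [if_pos hbn, if_pos hbn]
      by_cases hun : (u : ℤ) ∣ N i
      · have h1 : ((b * u : ℕ) : ℤ) ∣ N i := by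
          push_cast
          exact hc'.mul_dvd hbn hun
        rw [if_pos h1, if_pos hun]
        ring
      · have h1 : ¬ ((b * u : ℕ) : ℤ) ∣ N i := by
          intro h
          apply hun
          push_cast at h
          exact (Dvd.intro_left _ rfl).trans h
        rw [if_neg h1, if_neg hun]
        ring
    · have h1 : ¬ ((b * u : ℕ) : ℤ) ∣ N i := by
        intro h
        apply hbn
        push_cast at h
        exact (Dvd.intro _ rfl).trans h
      rw [if_neg hbn, if_neg hbn, if_neg h1]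
      ring
  rw [Finset.sum_congr rfl e1, Finset.sum_comm]
  refine Finset.sum_congr rfl fun i _ => ?_
  split_ifs
  · unfold UU
    rw [Finset.mul_sum]
  · exact Finset.sum_const_zero

/-! ### the list `IF T` -/

lemma esF_ge : ∀ x ∈ esF (1 / 1000000), (1 / 100 : ℝ) ≤ x ∧ x ≤ 16 / 100 := by
  intro x hx
  simp only [esF, List.mem_cons, List.not_mem_nil, or_false] at hx
  rcases hx with rfl | rfl | rfl | rfl | rfl | rfl | rfl <;> constructor <;> norm_num

lemma esF_chain : (esF (1 / 1000000)).Pairwise (fun x y => x + (1 / 100000000 : ℝ) < y) := by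
  simp only [esF, List.pairwise_cons, List.mem_cons, List.not_mem_nil, or_false, forall_eq_or_imp, forall_eq,
    IsEmpty.forall_iff, implies_true, List.Pairwise.nil, and_true]
  norm_num

lemma IF_ne (T : ℝ) : IF T ≠ [] := by
  simp [IF, IL, esF]

lemma IF_prime {T : ℝ} (hT : 1 < T) : ∀ I ∈ IF T, ∀ p ∈ I, p.Prime ∧ ⌊T ^ (1 / 4000000 : ℝ)⌋₊ < p := by
  intro I hI p hp
  simp only [IF, IL, List.mem_map] at hI
  obtain ⟨e, he, rfl⟩ := hI
  simp only [IP, Finset.mem_filter] at hp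
  refine ⟨hp.2.1, ?_⟩
  have h1 : T ^ (1 / 4000000 : ℝ) < (p : ℝ) := by
    refine lt_of_le_of_lt ?_ hp.2.2
    exact Real.rpow_le_rpow_of_exponent_le hT.le (by linarith [(esF_ge e he).1])
  exact (Nat.floor_lt (by positivity)).mpr h1

lemma IF_disj {T : ℝ} (hT : 1 < T) : (IF T).Pairwise (fun I J => Disjoint I J) := by
  unfold IF IL
  rw [List.pairwise_map]
  refine esF_chain.imp ?_
  intro x y hxy
  rw [Finset.disjoint_left]
  intro p hp hq
  simp only [IP, Finset.mem_filter, Finset.mem_Icc] at hp hq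
  have h1 : (p : ℝ) ≤ T ^ (x + (1 / 100000000 : ℝ)) := (Nat.le_floor_iff (by positivity)).mp hp.1.2
  have h2 : T ^ (x + (1 / 100000000 : ℝ)) ≤ T ^ y := Real.rpow_le_rpow_of_exponent_le hT.le hxy.le
  linarith [hq.2.2]

/-- trivial bound of `c_I` -/
lemma cI_le {T e v : ℝ} (hT : 1 ≤ T) (hev : e + v ≤ 1) : 0 ≤ cI (IP e v T) ∧ cI (IP e v T) ≤ 2 * (1 + Real.log T) := by
  have hp2 : ∀ p ∈ IP e v T, (2 : ℝ) ≤ p := by
    intro p hp
    simp only [IP, Finset.mem_filter] at hp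
    exact_mod_cast hp.2.1.two_le
  constructor
  · unfold cI
    refine Finset.sum_nonneg fun p hp => ?_
    have := hp2 p hp
    apply div_nonneg zero_le_one
    linarith
  · unfold cI
    have h1 : ∑ p ∈ IP e v T, 1 / ((p : ℝ) - 1) ≤ ∑ p ∈ IP e v T, 2 * ((p : ℝ))⁻¹ := by
      refine Finset.sum_le_sum fun p hp => ?_
      have := hp2 p hp
      rw [← div_eq_mul_inv, div_le_div_iff₀ (by linarith) (by linarith)]
      linarith
    have h2 : ∑ p ∈ IP e v T, 2 * ((p : ℝ))⁻¹ ≤ ∑ n ∈ Finset.Icc 1 ⌊T⌋₊, 2 * ((n : ℝ))⁻¹ := by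
      refine Finset.sum_le_sum_of_subset_of_nonneg ?_ (fun n _ _ => by positivity)
      intro p hp
      simp only [IP, Finset.mem_filter, Finset.mem_Icc] at hp ⊢
      refine ⟨hp.1.1, hp.1.2.trans (Nat.floor_le_floor ?_)⟩
      calc T ^ (e + v) ≤ T ^ (1 : ℝ) := Real.rpow_le_rpow_of_exponent_le hT hev
        _ = T := Real.rpow_one T
    have h3 : ∑ n ∈ Finset.Icc 1 ⌊T⌋₊, ((n : ℝ))⁻¹ ≤ 1 + Real.log T := by
      have h4 := harmonic_floor_le_one_add_log T hT
      rw [harmonic_eq_sum_Icc] at h4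
      push_cast at h4
      exact h4
    rw [← Finset.mul_sum] at h1
    rw [← Finset.mul_sum, ← Finset.mul_sum] at h2
    linarith

lemma prod_cI_le {T : ℝ} (hT : 1 ≤ T) : 0 ≤ ((IF T).map fun I => 1 + cI I).prod ∧
    ((IF T).map fun I => 1 + cI I).prod ≤ (3 + 2 * Real.log T) ^ 7 := by
  have hl : 0 ≤ Real.log T := Real.log_nonneg hT
  have key : ∀ es : List ℝ, (∀ x ∈ es, (1 / 100 : ℝ) ≤ x ∧ x ≤ 16 / 100) →
      0 ≤ ((es.map fun e => IP e (1 / 100000000) T).map fun I => 1 + cI I).prod ∧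
      ((es.map fun e => IP e (1 / 100000000) T).map fun I => 1 + cI I).prod ≤ (3 + 2 * Real.log T) ^ es.length := by
    intro es
    induction es with
    | nil => intro _; simp
    | cons e es ih =>
      intro h
      obtain ⟨i1, i2⟩ := ih (fun x hx => h x (by simp [hx]))
      have he := h e (by simp)
      obtain ⟨c1, c2⟩ := cI_le (T := T) (e := e) (v := 1 / 100000000) hT (by linarith [he.2])
      simp only [List.map_cons, List.prod_cons, List.length_cons, pow_succ]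
      refine ⟨mul_nonneg (by linarith) i1, ?_⟩
      rw [mul_comm ((3 + 2 * Real.log T) ^ es.length)]
      exact mul_le_mul (by linarith) i2 i1 (by linarith)
  exact key (esF (1 / 1000000)) esF_ge

/-- the reduction to `UU` -/
lemma core (hlink : Stmt_link) (hxi : Stmt_xi_bd) {ε : ℝ} (hε : 0 < ε) : ∀ᶠ T : ℝ in atTop,
    ∀ {ι : Type} (S : Finset ι) (N : ι → ℤ) (f : ι → ℝ) (E : ℝ), 0 ≤ E →
      (∀ J : List (Finset ℕ), J.Sublist (IF T) → J ≠ [] → ∀ b : ℕ, 1 ≤ b → (b : ℝ) ≤ T ^ (1 / 4000000 : ℝ) →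
        |∑ i ∈ S.filter (fun i => (b : ℤ) ∣ N i), f i * UU J (N i)| ≤ E) →
      |∑ i ∈ S, f i * bF T (N i)| ≤ T ^ (1 / 4000000 + ε : ℝ) * E := by
  obtain ⟨C, hC, hxi⟩ := hxi
  -- the logarithms
  have hlog : ∀ᶠ T : ℝ in atTop, (3 + 2 * Real.log T) ^ 7 * (C * (1 + Real.log T) ^ 2) ≤ T ^ ε := by
    have h1 : Tendsto (fun T : ℝ => (C + 1) * (5 ^ 9 * (Real.log T) ^ 9) / T ^ ε) atTop (𝓝 0) := by
      have h2 : Tendsto (fun T : ℝ => (Real.log T) ^ (9 : ℝ) / T ^ ε) atTop (𝓝 0) :=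
        (isLittleO_log_rpow_rpow_atTop (9 : ℝ) hε).tendsto_div_nhds_zero
      have h3 := h2.const_mul ((C + 1) * 5 ^ 9)
      rw [mul_zero] at h3
      refine h3.congr' ?_
      filter_upwards [eventually_ge_atTop (1 : ℝ)] with T hT
      have : (Real.log T) ^ (9 : ℝ) = Real.log T ^ (9 : ℕ) := by
        rw [← Real.rpow_natCast]; norm_num
      rw [this]; ring
    filter_upwards [h1.eventually_le_const (show (0 : ℝ) < 1 by norm_num), eventually_ge_atTop (Real.exp 1)] with T h2 hT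
    have hT0 : 0 < T := (Real.exp_pos 1).trans_le hT
    have hl : 1 ≤ Real.log T := by
      rw [Real.le_log_iff_exp_le hT0]
      exact hT
    have hTe : 0 < T ^ ε := Real.rpow_pos_of_pos hT0 ε
    rw [div_le_one hTe] at h2
    refine le_trans ?_ h2
    have a1 : (3 + 2 * Real.log T) ^ 7 ≤ (5 * Real.log T) ^ 7 := by gcongr; linarith
    have a2 : (1 + Real.log T) ^ 2 ≤ (5 * Real.log T) ^ 2 := by gcongr; linarith
    calc (3 + 2 * Real.log T) ^ 7 * (C * (1 + Real.log T) ^ 2) ≤ (5 * Real.log T) ^ 7 * (C * (5 * Real.log T) ^ 2) := by gcongr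
      _ = C * (5 ^ 9 * Real.log T ^ 9) := by ring
      _ ≤ (C + 1) * (5 ^ 9 * Real.log T ^ 9) := by
        apply mul_le_mul_of_nonneg_right (by linarith)
        positivity
  filter_upwards [hlog, eventually_gt_atTop (1 : ℝ)] with T hTl hT1
  intro ι S N f E hE h
  have hT0 : 0 < T := by linarith
  set B : ℕ := ⌊T ^ (1 / 4000000 : ℝ)⌋₊ with hB
  have hBle : (B : ℝ) ≤ T ^ (1 / 4000000 : ℝ) := Nat.floor_le (by positivity)
  have hBT : (B : ℝ) ≤ T := by
    refine hBle.trans ?_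
    calc T ^ (1 / 4000000 : ℝ) ≤ T ^ (1 : ℝ) := Real.rpow_le_rpow_of_exponent_le hT1.le (by norm_num)
      _ = T := Real.rpow_one T
  have hB1 : 1 ≤ B := by
    rw [hB, Nat.one_le_floor_iff]
    exact Real.one_le_rpow hT1.le (by norm_num)
  have hlB : 0 ≤ Real.log B := Real.log_nonneg (by exact_mod_cast hB1)
  have hlBT : Real.log B ≤ Real.log T := Real.log_le_log (by exact_mod_cast hB1) hBT
  have hl := hlink S N f B (IF T) (IF_ne T) (IF_prime hT1) (IF_disj hT1) (B * (C * (1 + Real.log T) ^ 2) * E) ?_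
  · have e : ∀ n : ℤ, bF T n = bb B (IF T) n := fun n => rfl
    simp only [e]
    refine hl.trans ?_
    obtain ⟨p0, p1⟩ := prod_cI_le hT1.le
    have q0 : 0 ≤ (3 + 2 * Real.log T) ^ 7 := p0.trans p1
    calc ((IF T).map fun I => 1 + cI I).prod * (B * (C * (1 + Real.log T) ^ 2) * E) ≤
        (3 + 2 * Real.log T) ^ 7 * (T ^ (1 / 4000000 : ℝ) * (C * (1 + Real.log T) ^ 2) * E) := by gcongr
      _ = T ^ (1 / 4000000 : ℝ) * ((3 + 2 * Real.log T) ^ 7 * (C * (1 + Real.log T) ^ 2)) * E := by ring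
      _ ≤ T ^ (1 / 4000000 : ℝ) * T ^ ε * E := by gcongr
      _ = T ^ (1 / 4000000 + ε : ℝ) * E := by rw [← Real.rpow_add hT0]
  · intro J hJ hJne
    calc |∑ b ∈ Finset.Icc 1 B, xi B b * ∑ u ∈ PU J, (u : ℝ) / Nat.totient u * ∑ i ∈ S, f i *
            ((if ((b * u : ℕ) : ℤ) ∣ N i then (1 : ℝ) else 0) - (1 / u) * (if (b : ℤ) ∣ N i then (1 : ℝ) else 0))| ≤
        ∑ b ∈ Finset.Icc 1 B, |xi B b * ∑ u ∈ PU J, (u : ℝ) / Nat.totient u * ∑ i ∈ S, f i *
            ((if ((b * u : ℕ) : ℤ) ∣ N i then (1 : ℝ) else 0) - (1 / u) * (if (b : ℤ) ∣ N i then (1 : ℝ) else 0))| :=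
          Finset.abs_sum_le_sum_abs _ _
      _ ≤ ∑ _b ∈ Finset.Icc 1 B, (C * (1 + Real.log T) ^ 2) * E := by
        refine Finset.sum_le_sum fun b hb => ?_
        rw [Finset.mem_Icc] at hb
        rw [abs_mul]
        have hbr : (b : ℝ) ≤ T ^ (1 / 4000000 : ℝ) := le_trans (by exact_mod_cast hb.2) hBle
        rw [inner_eq S N f J (fun I hI => IF_prime hT1 I (hJ.subset hI)) b hb.1 hb.2]
        have h1 : |xi B b| ≤ C * (1 + Real.log T) ^ 2 := by
          refine (hxi B b hb.1 hb.2).trans ?_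
          gcongr
        exact mul_le_mul h1 (h J hJ hJne b hb.1 hbr) (abs_nonneg _) (by positivity)
      _ = B * (C * (1 + Real.log T) ^ 2) * E := by
        rw [Finset.sum_const, Nat.card_Icc, nsmul_eq_mul, Nat.add_sub_cancel]
        ring

/-- residue classes absorbed in the coefficients -/
lemma cls_sum (b μ l : ℕ) (S1 S2 : Finset ℕ) (α β : ℕ → ℝ) (G : ℕ → ℕ → ℝ) :
    ∑ x ∈ S1.filter (fun x => x % b = μ), ∑ y ∈ S2.filter (fun y => y % b = l), α x * β y * G x y =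
      ∑ x ∈ S1, ∑ y ∈ S2, (if x % b = μ then α x else 0) * (if y % b = l then β y else 0) * G x y := by
  rw [Finset.sum_filter]
  refine Finset.sum_congr rfl fun x _ => ?_
  split_ifs with h
  · rw [Finset.sum_filter]
    refine Finset.sum_congr rfl fun y _ => ?_
    split_ifs <;> ring
  · symm
    apply Finset.sum_eq_zero
    intro y _
    ring

lemma ite_abs_le {P : Prop} [Decidable P] {a : ℝ} (h : |a| ≤ 1) : |if P then a else 0| ≤ 1 := by
  split_ifs
  · exact h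
  · simp

/-- the general bilinear form of the reduction -/
lemma bil {T ε X Y : ℝ} (hT : 1 < T) {P : ℕ → Prop} (hXY : X + 3 / 4000000 + ε ≤ Y)
    (hc : ∀ {ι : Type} (S : Finset ι) (N : ι → ℤ) (f : ι → ℝ) (E : ℝ), 0 ≤ E →
      (∀ J : List (Finset ℕ), J.Sublist (IF T) → J ≠ [] → ∀ b : ℕ, 1 ≤ b → (b : ℝ) ≤ T ^ (1 / 4000000 : ℝ) →
        |∑ i ∈ S.filter (fun i => (b : ℤ) ∣ N i), f i * UU J (N i)| ≤ E) →
      |∑ i ∈ S, f i * bF T (N i)| ≤ T ^ (1 / 4000000 + ε : ℝ) * E) (k : ℤ) (S1 S2 : Finset ℕ)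
    (hU : ∀ J : List (Finset ℕ), J.Sublist (IF T) → J ≠ [] → ∀ α β : ℕ → ℝ, (∀ m, |α m| ≤ 1) → (∀ l, |β l| ≤ 1) →
      (∀ l, β l ≠ 0 → P l) → |∑ m ∈ S1, ∑ l ∈ S2, α m * β l * UU J (m * l + k)| ≤ T ^ X)
    (α β : ℕ → ℝ) (hα : ∀ m, |α m| ≤ 1) (hβ : ∀ l, |β l| ≤ 1) (hβ' : ∀ l, β l ≠ 0 → P l) :
    |∑ m ∈ S1, ∑ l ∈ S2, α m * β l * bF T (m * l + k)| ≤ T ^ Y := by
  have hT0 : 0 < T := by linarith
  have h1 := hc (S1 ×ˢ S2) (fun x => (x.1 : ℤ) * x.2 + k) (fun x => α x.1 * β x.2) (T ^ (2 / 4000000 : ℝ) * T ^ X) (by positivity) ?_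
  · rw [Finset.sum_product] at h1
    refine h1.trans ?_
    rw [← Real.rpow_add hT0, ← Real.rpow_add hT0]
    exact Real.rpow_le_rpow_of_exponent_le hT.le (by linarith)
  · intro J hJ hJne b hb hbT
    have h2 := classes2 b hb S1 S2 k (fun m l => α m * β l * UU J ((m : ℤ) * l + k)) (T ^ X) (by positivity) ?_
    · refine h2.trans ?_
      have h3 : (b : ℝ) ^ 2 ≤ T ^ (2 / 4000000 : ℝ) := by
        calc (b : ℝ) ^ 2 ≤ (T ^ (1 / 4000000 : ℝ)) ^ 2 := by gcongr
          _ = T ^ (2 / 4000000 : ℝ) := by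
            rw [← Real.rpow_natCast, ← Real.rpow_mul hT0.le]
            norm_num
      gcongr
    · intro μ l _ _
      rw [cls_sum]
      refine hU J hJ hJne _ _ (fun m => ite_abs_le (hα m)) (fun l => ite_abs_le (hβ l)) ?_
      intro y hy
      apply hβ'
      intro h0
      apply hy
      simp only [h0, ite_self]

end BPS

open BPS

theorem BP_of (hlink : Stmt_link) (hxi : Stmt_xi_bd) (hUP : Stmt_UP) : Stmt_BP := by
  filter_upwards [core hlink hxi (ε := 1 / 100000000) (by norm_num), hUP, eventually_gt_atTop (1 : ℝ)] with T hc hU hT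
  intro k M L M₀ L₀ α β hk hkT hM hL hML hα hβ hβ'
  refine bil (P := fun l => l.Prime ∧ T ^ (1 / 2000 : ℝ) ≤ l ∧ (l : ℝ) ≤ T ^ (405 / 1000 : ℝ)) (X := 1 - 9 / 10000000) hT
    (by norm_num) hc k _ _ ?_ α β hα hβ hβ'
  intro J hJ hJne α' β' hα' hβ1 hβ2
  exact hU J hJ hJne k M L M₀ L₀ α' β' hk hkT hM hL hML hα' hβ1 hβ2

theorem BS_of (hlink : Stmt_link) (hxi : Stmt_xi_bd) (hUS : Stmt_US) : Stmt_BS := by
  filter_upwards [core hlink hxi (ε := 1 / 100000000) (by norm_num), hUS, eventually_gt_atTop (1 : ℝ)] with T hc hU hT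
  intro k M L M₀ L₀ α β hk hkT hM hL hML hα hβ hβ'
  refine bil (P := fun l => Squarefree l ∧ T ^ (1 / 400 : ℝ) < l ∧ (l : ℝ) ≤ T ^ (3 / 1000 : ℝ) ∧
    ∀ p : ℕ, p.Prime → p ∣ l → (p : ℝ) ≤ T ^ (1 / 2000 : ℝ)) (X := 1 - 6 / 10000) hT
    (by norm_num) hc k _ _ ?_ α β hα hβ hβ'
  intro J hJ hJne α' β' hα' hβ1 hβ2
  exact hU J hJ hJne k M L M₀ L₀ α' β' hk hkT hM hL hML hα' hβ1 hβ2

theorem BT_of (hlink : Stmt_link) (hxi : Stmt_xi_bd) (hUT : Stmt_UT) : Stmt_BT := by
  filter_upwards [core hlink hxi (ε := 1 / 100000000) (by norm_num), hUT, eventually_gt_atTop (1 : ℝ)] with T hc hU hT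
  intro k d M₀ M hk hkT hd hdT hM
  have hT0 : 0 < T := by linarith
  have h1 := hc (Finset.Ioc M₀ M) (fun m => (d : ℤ) * m + k) (fun _ => 1)
    (T ^ (1 / 4000000 : ℝ) * (T ^ (5001 / 10000 : ℝ) + M * T ^ (-(9 / 1000) : ℝ))) (by positivity) ?_
  · simp only [one_mul] at h1
    refine h1.trans ?_
    rw [← mul_assoc, ← Real.rpow_add hT0, mul_add, ← Real.rpow_add hT0]
    refine add_le_add (Real.rpow_le_rpow_of_exponent_le hT.le (by norm_num)) ?_
    rw [mul_comm (M : ℝ), ← mul_assoc, ← Real.rpow_add hT0, mul_comm (M : ℝ)]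
    exact mul_le_mul_of_nonneg_right (Real.rpow_le_rpow_of_exponent_le hT.le (by norm_num)) (by positivity)
  · intro J hJ hJne b hb hbT
    simp only [one_mul]
    have h2 := classes1 b hb (Finset.Ioc M₀ M) d k (fun m => UU J ((d : ℤ) * m + k))
      (T ^ (5001 / 10000 : ℝ) + M * T ^ (-(9 / 1000) : ℝ)) (by positivity) ?_
    · refine h2.trans ?_
      gcongr
    · intro μ hμ
      have h3 := hU J hJ hJne k d b μ M₀ M hk hkT hd hdT hb hbT hM
      have e : (Finset.Ioc M₀ M).filter (fun x => x % b = μ) = (Finset.Ioc M₀ M).filter (fun m => m ≡ μ [MOD b]) := by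
        apply Finset.filter_congr
        intro x _
        rw [Nat.ModEq, Nat.mod_eq_of_lt hμ]
      rw [e]
      exact h3

theorem BH_of (hlink : Stmt_link) (hxi : Stmt_xi_bd) (hUH : Stmt_UH) : Stmt_BH := by
  filter_upwards [core hlink hxi (ε := 1 / 100000000) (by norm_num), hUH, eventually_gt_atTop (1 : ℝ)] with T hc hU hT
  intro k N₀ N A A' α hk hkT hN hN1 hN2 hA hAN hα
  have hT0 : 0 < T := by linarith
  have h1 := hc ((Finset.Ioc N₀ N).sigma (fun n => Finset.Ioc (A n) (A' n))) (fun x => (x.1 : ℤ) * x.2 + k) (fun x => α x.1)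
    (T ^ (2 / 4000000 : ℝ) * T ^ (1 - 6 / 1000 : ℝ)) (by positivity) ?_
  · rw [Finset.sum_sigma] at h1
    simp only [← Finset.mul_sum] at h1
    refine h1.trans ?_
    rw [← Real.rpow_add hT0, ← Real.rpow_add hT0]
    exact Real.rpow_le_rpow_of_exponent_le hT.le (by norm_num)
  · intro J hJ hJne b hb hbT
    have h2 := classesG b hb ((Finset.Ioc N₀ N).sigma (fun n => Finset.Ioc (A n) (A' n))) (fun x => x.1) (fun x => x.2) k
      (fun x => α x.1 * UU J ((x.1 : ℤ) * x.2 + k)) (T ^ (1 - 6 / 1000 : ℝ)) (by positivity) ?_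
    · refine h2.trans ?_
      have h3 : (b : ℝ) ^ 2 ≤ T ^ (2 / 4000000 : ℝ) := by
        calc (b : ℝ) ^ 2 ≤ (T ^ (1 / 4000000 : ℝ)) ^ 2 := by gcongr
          _ = T ^ (2 / 4000000 : ℝ) := by
            rw [← Real.rpow_natCast, ← Real.rpow_mul hT0.le]
            norm_num
      gcongr
    · intro ν μ _ hμ
      have h3 := hU J hJ hJne k b μ N₀ N A A' (fun n => if n % b = ν then α n else 0) hk hkT hb hbT hN hN1 hN2 hA hAN
        (fun n => ite_abs_le (hα n))
      refine le_trans (le_of_eq ?_) h3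
      congr 1
      rw [Finset.sum_filter, Finset.sum_sigma]
      refine Finset.sum_congr rfl fun n _ => ?_
      rw [Finset.sum_filter, Finset.mul_sum]
      refine Finset.sum_congr rfl fun m _ => ?_
      have e : (m ≡ μ [MOD b]) ↔ m % b = μ := by
        rw [Nat.ModEq, Nat.mod_eq_of_lt hμ]
      by_cases h4 : n % b = ν
      · by_cases h5 : m % b = μ
        · rw [if_pos ⟨h4, h5⟩, if_pos h4, if_pos (e.mpr h5)]
        · rw [if_neg (fun h => h5 h.2), if_neg (fun h => h5 (e.mp h)), mul_zero]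
      · rw [if_neg (fun h => h4 h.1), if_neg h4, zero_mul]

end Pool.Agent.AP
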